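import Pool.Agent.Q281.BSG.Main
import Pool.Agent.Q281.BSG.B
import Pool.Agent.Q281.BSG.C
import Pool.Agent.Q281.BSG.Up
import Pool.Agent.Q281.BSG.Fin
import Pool.Agent.Q281.BSG.Mod
import Pool.Agent.Q177.BSG.E0
import Pool.Agent.Q190.BSG.N
import Pool.Agent.Q190.BSG.T

set_option autoImplicit false

/-!
# MP_27e7ce_al: conjugacy growth series of `BS(1,k)` for arbitrary generating sets (full answer: YES)

For every `k ≥ 2` and every finite generating set `S` of `BS(1,k) = ⟨a, t | t a t⁻¹ = aᵏ⟩` the conjugacy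
growth series is transcendental over `ℚ[z]`.
-/

namespace Pool.Agent.Results.MP_27e7ce_al.AllGeneratingSets

/-- The relator `t a t⁻¹ a⁻ᵏ`; `a` is the generator `0` and `t` the generator `1`. -/
def relators (k : ℕ) : Set (FreeGroup (Fin 2)) :=
  {FreeGroup.of 1 * FreeGroup.of 0 * (FreeGroup.of 1)⁻¹ * (FreeGroup.of 0 ^ k)⁻¹}

/-- The group `BS(1,k) = ⟨a, t | t a t⁻¹ = aᵏ⟩`. -/
abbrev BS (k : ℕ) : Type := PresentedGroup (relators k)

/-- The word length of `g`: the least length of a word in `S ∪ S⁻¹` with product `g`. -/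
noncomputable def wordLength {G : Type} [Group G] (S : Set G) (g : G) : ℕ :=
  sInf {n | ∃ w : List G, (∀ s ∈ w, s ∈ S ∨ s⁻¹ ∈ S) ∧ w.prod = g ∧ w.length = n}

/-- The length of a conjugacy class: the least word length of its elements. -/
noncomputable def classLength {G : Type} [Group G] (S : Set G) (κ : ConjClasses G) : ℕ :=
  sInf {n | ∃ g : G, ConjClasses.mk g = κ ∧ wordLength S g = n}

/-- The conjugacy growth series: the `n`-th coefficient is the number of conjugacy classes of length `n`. -/
noncomputable def conjugacyGrowthSeries {G : Type} [Group G] (S : Set G) : PowerSeries ℚ :=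
  PowerSeries.mk fun n => (Nat.card {κ : ConjClasses G // classLength S κ = n} : ℚ)

/-- **Main theorem.** For every `k ≥ 2` and every finite generating set `S` of `BS(1,k)` there are only finitely
many conjugacy classes of each length, and the conjugacy growth series `∑ c_S(n) zⁿ` is transcendental: it is not
a root of any nonzero polynomial with coefficients in `ℚ[z]`. -/
theorem result (k : ℕ) (hk : 2 ≤ k) (S : Set (BS k)) (hS : S.Finite) (hgen : Subgroup.closure S = ⊤) :
    (∀ n, {κ : ConjClasses (BS k) | classLength S κ = n}.Finite) ∧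
      ∀ P : Polynomial (Polynomial ℚ), P ≠ 0 →
        Polynomial.eval₂ (Polynomial.coeToPowerSeries.ringHom) (conjugacyGrowthSeries S) P ≠ 0 := by
  refine ⟨Pool.Agent.Q281.BSG.clen_fiber_finite (G := Pool.Agent.Q281.BSG.BS k) hS hgen, ?_⟩
  have hB := Pool.Agent.Q281.BSG.b
  have hC := Pool.Agent.Q281.BSG.c hB
  have hY := Pool.Agent.Q281.BSG.cyc hC
  have h := Pool.Agent.Q281.BSG.final hC Pool.Agent.Q281.BSG.low (Pool.Agent.Q281.BSG.up hC hY)
    (Pool.Agent.Q177.BSG.e0 hB) Pool.Agent.Q190.BSG.n (Pool.Agent.Q281.BSG.fin Pool.Agent.Q190.BSG.t)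
    Pool.Agent.Q281.BSG.mod k hk S hS hgen
  intro P hP h0
  exact h ⟨P, hP, h0⟩

end Pool.Agent.Results.MP_27e7ce_al.AllGeneratingSets
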